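import Pool.Agent.Helper95.TT.St

/-!
# Project TT, module A7
-/

set_option autoImplicit false

namespace Pool.Agent.Helper94.TT

open Pool.Agent.Helper95.TT
open NumberField IsDedekindDomain Polynomial

private theorem fin_mem (k : Type) [Field k] [NumberField k] (c : 𝓞 k) (hc : c ≠ 0) :
    {v : Pr k | c ∈ v.asIdeal}.Finite := by
  have h := Ideal.finite_factors (R := 𝓞 k) (I := Ideal.span {c})
    (by simpa [Ideal.span_singleton_eq_bot] using hc)
  refine h.subset ?_
  intro v hv
  simp only [Set.mem_ofPred_eq] at hv ⊢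
  exact Ideal.dvd_span_singleton.mpr hv

private theorem clear (R K : Type) [CommRing R] [IsDomain R] [Field K] [Algebra R K]
    [IsFractionRing R K] (f : R[X]) (hf : (f.map (algebraMap R K)).Separable) :
    ∃ (c : R) (A B : R[X]), c ≠ 0 ∧ A * f + B * derivative f = C c := by
  obtain ⟨a, b, hab⟩ := hf
  obtain ⟨d, hd0, hd⟩ := IsLocalization.integerNormalization_spec (nonZeroDivisors R) a
  obtain ⟨e, he0, he⟩ := IsLocalization.integerNormalization_spec (nonZeroDivisors R) b
  refine ⟨d * e, C e * IsLocalization.integerNormalization (nonZeroDivisors R) a,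
    C d * IsLocalization.integerNormalization (nonZeroDivisors R) b,
    mul_ne_zero (nonZeroDivisors.ne_zero hd0) (nonZeroDivisors.ne_zero he0), ?_⟩
  apply Polynomial.map_injective (algebraMap R K) (IsFractionRing.injective R K)
  rw [derivative_map] at hab
  simp only [Polynomial.map_add, Polynomial.map_mul, Polynomial.map_C, map_mul, hd, he]
  have key : ∀ (d : R) (a : K[X]), d • a = C (algebraMap R K d) * a := by
    intro d a
    ext n
    rw [coeff_smul, coeff_C_mul, Algebra.smul_def]
  rw [key, key]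
  linear_combination (C (algebraMap R K d) * C (algebraMap R K e)) * hab

theorem hA7 : StA7 := by
  intro k _ _
  refine ⟨fin_mem k, ?_⟩
  intro f hf
  obtain ⟨c, A, B, hc, hAB⟩ := clear (𝓞 k) k f hf
  have hf0 : f ≠ 0 := by
    rintro rfl
    rw [Polynomial.map_zero] at hf
    exact hf.ne_zero rfl
  have hlc : f.leadingCoeff ≠ 0 := leadingCoeff_ne_zero.mpr hf0
  have h2 : (2 : 𝓞 k) ≠ 0 := two_ne_zero
  refine ((fin_mem k 2 h2).union ((fin_mem k _ hlc).union (fin_mem k c hc))).subset ?_
  intro v hv
  by_contra hcon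
  simp only [Set.mem_union, Set.mem_ofPred_eq, not_or] at hcon
  obtain ⟨g2, gl, gc⟩ := hcon
  rcases hv with h | h | h
  · exact g2 h
  · exact gl h
  · apply h
    have hmax : v.asIdeal.IsMaximal := v.isMaximal
    let : Field (𝓞 k ⧸ v.asIdeal) := Ideal.Quotient.field v.asIdeal
    have hne : Ideal.Quotient.mk v.asIdeal c ≠ 0 := by
      rwa [Ne, Ideal.Quotient.eq_zero_iff_mem]
    apply Polynomial.Separable.squarefree
    have hm := congrArg (Polynomial.map (Ideal.Quotient.mk v.asIdeal)) hAB
    simp only [Polynomial.map_add, Polynomial.map_mul, Polynomial.map_C] at hm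
    refine ⟨C (Ideal.Quotient.mk v.asIdeal c)⁻¹ * A.map (Ideal.Quotient.mk v.asIdeal),
      C (Ideal.Quotient.mk v.asIdeal c)⁻¹ * B.map (Ideal.Quotient.mk v.asIdeal), ?_⟩
    rw [derivative_map]
    have h1 : C (Ideal.Quotient.mk v.asIdeal c)⁻¹ * C (Ideal.Quotient.mk v.asIdeal c) =
        (1 : (𝓞 k ⧸ v.asIdeal)[X]) := by
      rw [← C_mul, inv_mul_cancel₀ hne, C_1]
    rw [← h1, ← hm]
    ring

end Pool.Agent.Helper94.TT
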